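import Pool.Agent.H24.CL.TargetsK
import Pool.Agent.H4.CLV.TY

/-!
# Board clk_modules, row TY
Every alive point lies in the first set of one of boundedly many labelled chains, or some
descendant is too high. The chains are the ones of row TY of the board clv_modules (helper4), with
one more index: the label.
-/

set_option autoImplicit false

open Finset MeasureTheory

namespace Pool.Agent.H81.CLK

open Pool.Agent.H24.CL Pool.Agent.H4.CLV

/-! ### torsion -/

theorem fin_circle {n : ℕ} (hn : 0 < n) : {x : UnitAddCircle | n • x = 0}.Finite :=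
  AddCircle.finite_torsion (p := (1 : ℝ)) hn

theorem meas_imp {α : Type} [MeasurableSpace α] (p : Prop) {s : Set α} (hs : MeasurableSet s) :
    MeasurableSet {w : α | p → w ∈ s} := by
  by_cases hp : p
  · have h : {w : α | p → w ∈ s} = s := by
      ext w
      exact ⟨fun h => h hp, fun h _ => h⟩
    rw [h]; exact hs
  · have h : {w : α | p → w ∈ s} = Set.univ := by
      ext w
      exact ⟨fun _ => trivial, fun _ h => absurd h hp⟩
    rw [h]; exact MeasurableSet.univ

theorem fin_H (k q r : ℕ) (hq : 1 ≤ q) : {h : X k | h ∈ H k q r}.Finite := by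
  have h1 : {h : X k | h ∈ H k q r} ⊆
      Set.pi Set.univ fun _ : Fin k => {x : UnitAddCircle | q ^ r • x = 0} := by
    intro h hh i _
    have h2 : q ^ r • h = 0 := hh
    exact congrFun h2 i
  exact (Set.Finite.pi fun _ => fin_circle (pow_pos (by omega) r)).subset h1

theorem phi_H1 (k q b : ℕ) (h : X k) (hh : h ∈ H k q 1) : phi q b h = 0 := by
  have h2 : q ^ 1 • h = 0 := hh
  funext i
  change ∑ j : Fin k,
    (Nat.choose (j.val + 1) (i.val + 1) * b ^ (j.val - i.val) * q ^ (i.val + 1)) • h j = 0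
  refine Finset.sum_eq_zero fun j _ => ?_
  have h3 : q • h j = 0 := by
    have := congrFun h2 j
    rw [pow_one] at this
    exact this
  have h4 : Nat.choose (j.val + 1) (i.val + 1) * b ^ (j.val - i.val) * q ^ (i.val + 1) =
      (Nat.choose (j.val + 1) (i.val + 1) * b ^ (j.val - i.val) * q ^ i.val) * q := by
    rw [pow_succ]
    ring
  rw [h4, mul_smul, h3, smul_zero]

/-! ### the positions of a coset -/

open Classical in
/-- the positions of the coset of `H k q r` through `w` which lead to `V` -/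
noncomputable def Bw (k q r : ℕ) (V : Set (X k)) (w : X k) : Finset ℕ :=
  (range q).filter fun b => ∃ h ∈ H k q r, phi q b (w + h) ∈ V

theorem Bw_meas (k q r : ℕ) (hq : 1 ≤ q) {V : Set (X k)} (hV : MeasurableSet V) :
    Measurable fun w : X k => ((Bw k q r V w).card : ℝ) := by
  classical
  have hm : ∀ b, MeasurableSet {w : X k | ∃ h ∈ H k q r, phi q b (w + h) ∈ V} := by
    intro b
    have h1 : {w : X k | ∃ h ∈ H k q r, phi q b (w + h) ∈ V} =
        ⋃ h ∈ {h : X k | h ∈ H k q r}, {w : X k | phi q b (w + h) ∈ V} := by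
      ext w
      constructor
      · rintro ⟨h, h2, h3⟩
        exact Set.mem_iUnion₂.mpr ⟨h, h2, h3⟩
      · intro h
        obtain ⟨h, h2, h3⟩ := Set.mem_iUnion₂.mp h
        exact ⟨h, h2, h3⟩
    rw [h1]
    refine (fin_H k q r hq).measurableSet_biUnion fun h _ => ?_
    have hc : Continuous fun w : X k => phi q b (w + h) :=
      (cont_phi k q b).comp (continuous_id.add continuous_const)
    exact hc.measurable hV
  have h1 : (fun w : X k => ((Bw k q r V w).card : ℝ)) = fun w => ∑ b ∈ range q,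
      {w : X k | ∃ h ∈ H k q r, phi q b (w + h) ∈ V}.indicator (fun _ => (1 : ℝ)) w := by
    funext w
    unfold Bw
    rw [Finset.card_filter, Nat.cast_sum]
    refine Finset.sum_congr rfl fun b _ => ?_
    by_cases h : ∃ h ∈ H k q r, phi q b (w + h) ∈ V
    · rw [if_pos h, Set.indicator_of_mem (by exact h), Nat.cast_one]
    · rw [if_neg h, Set.indicator_of_notMem (by exact h), Nat.cast_zero]
  rw [h1]
  exact Finset.measurable_sum _ fun b _ => measurable_const.indicator (hm b)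

theorem Bw_one (k q : ℕ) (V : Set (X k)) (w : X k) : Bw k q 1 V w = pos q V w := by
  classical
  unfold Bw pos
  refine Finset.filter_congr fun b _ => ?_
  constructor
  · rintro ⟨h, h1, h2⟩
    rw [map_add, phi_H1 k q b h h1, add_zero] at h2
    exact h2
  · intro h
    exact ⟨0, zero_mem _, by rwa [add_zero]⟩

/-! ### labels, counted from the bottom -/

/-- The labels of a chain counted from the bottom. -/
structure Lb (k q M : ℕ) (ρ : ℝ) (V : ℕ → Set (X k)) (N : ℕ → ℝ) (Q : ℕ → ℕ) : Prop where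
  le : ∀ i < M, Q i ≤ k
  big : ∀ i < M, Q i = 0 → ρ ≤ N i
  few : ∀ i < M, 1 ≤ Q i → N i ≤ ρ
  pass : ∀ i < M, 1 ≤ Q i → Pass k q (Q i) (V (i + 1)) (V i) (ρ ^ 2)
  own : ∀ i < M, 1 ≤ Q i → Q i < k → Own k q (Q i + 1) (V (i + 1)) (V i) (ρ ^ 2)

theorem Lb.shrink {k q M : ℕ} {ρ : ℝ} {V : ℕ → Set (X k)} {N : ℕ → ℝ} {Q : ℕ → ℕ}
    (h : Lb k q M ρ V N Q) {S : Set (X k)} (hS : S ⊆ V M) :
    Lb k q M ρ (fun l => if l = M then S else V l) N Q := by
  have hsub : ∀ i, (if i = M then S else V i) ⊆ V i := by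
    intro i
    by_cases hi : i = M
    · rw [if_pos hi, hi]; exact hS
    · rw [if_neg hi]
  have heq : ∀ i, i < M → (if i = M then S else V i) = V i := fun i hi => if_neg hi.ne
  refine ⟨h.le, h.big, h.few, ?_, ?_⟩
  · intro i hi h1
    rw [heq i hi]
    intro z hz
    exact h.pass i hi h1 z (hsub _ hz)
  · intro i hi h1 h2
    rw [heq i hi]
    intro z hz
    exact h.own i hi h1 h2 z (hsub _ hz)

theorem Lb.extend {k q M : ℕ} {ρ : ℝ} {V : ℕ → Set (X k)} {N : ℕ → ℝ} {Q : ℕ → ℕ}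
    (h : Lb k q M ρ V N Q) {S : Set (X k)} {n0 : ℝ} {r0 : ℕ} (h1 : r0 ≤ k)
    (h2 : r0 = 0 → ρ ≤ n0) (h3 : 1 ≤ r0 → n0 ≤ ρ)
    (h4 : 1 ≤ r0 → Pass k q r0 S (V M) (ρ ^ 2))
    (h5 : 1 ≤ r0 → r0 < k → Own k q (r0 + 1) S (V M) (ρ ^ 2)) :
    Lb k q (M + 1) ρ (fun l => if l = M + 1 then S else V l) (fun l => if l = M then n0 else N l)
      (fun l => if l = M then r0 else Q l) := by
  have hne : ∀ i, i < M + 1 → (if i = M + 1 then S else V i) = V i := fun i hi => if_neg hi.ne
  have heq : (if M + 1 = M + 1 then S else V (M + 1)) = S := if_pos rfl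
  have nne : ∀ i, i < M → (if i = M then n0 else N i) = N i := fun i hi => if_neg hi.ne
  have neq : (if M = M then n0 else N M) = n0 := if_pos rfl
  have rne : ∀ i, i < M → (if i = M then r0 else Q i) = Q i := fun i hi => if_neg hi.ne
  have req : (if M = M then r0 else Q M) = r0 := if_pos rfl
  refine ⟨?_, ?_, ?_, ?_, ?_⟩
  · intro i hi
    rcases Nat.lt_or_ge i M with h' | h'
    · rw [rne i h']
      exact h.le i h'
    · obtain rfl : i = M := by omega
      rw [req]; exact h1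
  · intro i hi
    rcases Nat.lt_or_ge i M with h' | h'
    · rw [rne i h', nne i h']
      exact h.big i h'
    · obtain rfl : i = M := by omega
      rw [req, neq]; exact h2
  · intro i hi
    rcases Nat.lt_or_ge i M with h' | h'
    · rw [rne i h', nne i h']
      exact h.few i h'
    · obtain rfl : i = M := by omega
      rw [req, neq]; exact h3
  · intro i hi
    rcases Nat.lt_or_ge i M with h' | h'
    · rw [rne i h', hne i (by omega), hne (i + 1) (by omega)]
      exact h.pass i h'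
    · obtain rfl : i = M := by omega
      rw [req, heq, hne i (by omega)]
      exact h4
  · intro i hi
    rcases Nat.lt_or_ge i M with h' | h'
    · rw [rne i h', hne i (by omega), hne (i + 1) (by omega)]
      exact h.own i h'
    · obtain rfl : i = M := by omega
      rw [req, heq, hne i (by omega)]
      exact h5

/-- make the top sets disjoint, and index by `Fin` -/
theorem disjL {k q L M : ℕ} {T ρ a b : ℝ} {κ : Type} {NN : ℕ} (g : κ ≃ Fin NN)
    (V : κ → ℕ → Set (X k)) (B N : κ → ℕ → ℝ) (Q : κ → ℕ → ℕ)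
    (h : ∀ c, Up k q L M T ρ a b (V c) (B c) (N c)) (hl : ∀ c, Lb k q M ρ (V c) (N c) (Q c)) :
    ∃ (V' : Fin NN → ℕ → Set (X k)) (B' N' : Fin NN → ℕ → ℝ) (Q' : Fin NN → ℕ → ℕ),
      (∀ c, Up k q L M T ρ a b (V' c) (B' c) (N' c)) ∧
      (∀ c, Lb k q M ρ (V' c) (N' c) (Q' c)) ∧
      (∀ c c', c ≠ c' → Disjoint (V' c M) (V' c' M)) ∧
      ∀ w c, w ∈ V c M → ∃ c', w ∈ V' c' M := by
  let S : Fin NN → Set (X k) := fun c =>
    V (g.symm c) M \ ⋃ c' : Fin NN, ⋃ _ : c' < c, V (g.symm c') M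
  have hS : ∀ c, S c ⊆ V (g.symm c) M := fun c => Set.sdiff_subset
  have hm : ∀ c, MeasurableSet (S c) := fun c =>
    ((h _).meas M le_rfl).diff (MeasurableSet.iUnion fun c' => MeasurableSet.iUnion fun _ =>
      (h _).meas M le_rfl)
  have hlt : ∀ c c', c < c' → Disjoint (S c) (S c') := by
    intro c c' hcc
    rw [Set.disjoint_left]
    intro w hw hw'
    refine hw'.2 ?_
    exact Set.mem_iUnion₂.mpr ⟨c, hcc, hS c hw⟩
  refine ⟨fun c l => if l = M then S c else V (g.symm c) l, fun c => B (g.symm c),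
    fun c => N (g.symm c), fun c => Q (g.symm c), fun c => (h _).shrink (hS c) (hm c),
    fun c => (hl _).shrink (hS c), ?_, ?_⟩
  · intro c c' hcc
    change Disjoint (if M = M then S c else V (g.symm c) M)
      (if M = M then S c' else V (g.symm c') M)
    rw [if_pos rfl, if_pos rfl]
    rcases lt_or_gt_of_ne hcc with h1 | h1
    · exact hlt _ _ h1
    · exact (hlt _ _ h1).symm
  · intro w c hw
    have hne : ∃ c' : Fin NN, w ∈ V (g.symm c') M := ⟨g c, by rw [Equiv.symm_apply_apply]; exact hw⟩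
    obtain ⟨c', hc', hmin⟩ := WellFounded.has_min (wellFounded_lt (α := Fin NN))
      {c' | w ∈ V (g.symm c') M} hne
    refine ⟨c', ?_⟩
    change w ∈ (if M = M then S c' else V (g.symm c') M)
    rw [if_pos rfl]
    refine ⟨hc', ?_⟩
    intro h1
    obtain ⟨c'', h2, h3⟩ := Set.mem_iUnion₂.mp h1
    exact hmin c'' h3 h2

/-- the largest label -/
theorem exists_label (Pr : ℕ → Prop) (k : ℕ) (hk : 1 ≤ k) (h1 : Pr 1) :
    ∃ r, 1 ≤ r ∧ r ≤ k ∧ Pr r ∧ (r < k → ¬ Pr (r + 1)) := by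
  induction k, hk using Nat.le_induction with
  | base => exact ⟨1, le_rfl, le_rfl, h1, fun h => absurd h (lt_irrefl 1)⟩
  | succ k hk ih =>
    by_cases h2 : Pr (k + 1)
    · exact ⟨k + 1, by omega, le_rfl, h2, fun h => absurd h (lt_irrefl _)⟩
    · obtain ⟨r, h3, h4, h5, h6⟩ := ih
      refine ⟨r, h3, by omega, h5, fun h7 => ?_⟩
      rcases Nat.lt_or_ge r k with h8 | h8
      · exact h6 h8
      · obtain rfl : r = k := by omega
        exact h2

/-! ### the induction -/

/-- the statement of the induction -/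
def ClL (k m : ℕ) (ε : ℝ) (M : ℕ) : Prop :=
  ∃ (NN : ℕ) (T : ℝ), 1 ≤ T ∧ ∀ (q L : ℕ) (a : ℝ), 2 ≤ q → 1 ≤ L → 0 < a →
    ∃ (V : Fin NN → ℕ → Set (X k)) (B N : Fin NN → ℕ → ℝ) (Q : Fin NN → ℕ → ℕ),
      (∀ c, Up k q L M T ((q : ℝ) ^ ε) a (a * (2 * q) ^ m) (V c) (B c) (N c)) ∧
      (∀ c, Lb k q M ((q : ℝ) ^ ε) (V c) (N c) (Q c)) ∧
      (∀ c c', c ≠ c' → Disjoint (V c M) (V c' M)) ∧
      ∀ w, a * 2 ^ M ≤ ‖u (q ^ M * L) w‖ → Low k q L M (a * (2 * q) ^ m) w → ∃ c, w ∈ V c M

theorem baseL (hEX : T_EX) (k m : ℕ) (ε : ℝ) (hε : 0 < ε) : ClL k m ε 0 := by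
  obtain ⟨NN, T, hT, h⟩ := base hEX k m ε hε
  refine ⟨NN, T, hT, fun q L a hq hL ha => ?_⟩
  obtain ⟨V, B, N, h1, h2, h3⟩ := h q L a hq hL ha
  refine ⟨V, B, N, fun _ _ => 0, h1, fun c => ?_, h2, h3⟩
  constructor <;> exact fun i hi => absurd hi (Nat.not_lt_zero i)

/-- the label of the class with the count `n` and the index `r` -/
noncomputable def rl (ρ n : ℝ) (r : ℕ) : ℕ := if n ≤ ρ then max 1 r else 0

theorem stepL (hEX : T_EX) (hPF : T_PF) (k m : ℕ) (hk : 1 ≤ k) (ε : ℝ) (hε : 0 < ε) (M : ℕ)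
    (h : ClL k m ε M) : ClL k m ε (M + 1) := by
  classical
  obtain ⟨NN, T, hT, h⟩ := h
  refine ⟨Fintype.card (Fin NN × Fin (⌈(2 * m : ℝ) / ε⌉₊ + 1) × Fin (⌈(1 : ℝ) / ε⌉₊ + 1) ×
    Fin (k + 1)), max T (2 * NN), hT.trans (le_max_left _ _), fun q L a hq hL ha => ?_⟩
  obtain ⟨V, B, N, Q, hup, hlb, hdis, hcov⟩ := h q L a hq hL ha
  let S : Fin NN × Fin (⌈(2 * m : ℝ) / ε⌉₊ + 1) × Fin (⌈(1 : ℝ) / ε⌉₊ + 1) × Fin (k + 1) →
      Set (X k) := fun c =>
    {w | ((bh q ε a (a * (2 * q) ^ m) c.2.1 ≤ ‖u (q ^ (M + 1) * L) w‖ ∧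
          ‖u (q ^ (M + 1) * L) w‖ ≤ (q : ℝ) ^ ε * bh q ε a (a * (2 * q) ^ m) c.2.1) ∧
          (nh q ε c.2.2.1 ≤ ((pos q (V c.1 M) w).card : ℝ) ∧
          ((pos q (V c.1 M) w).card : ℝ) ≤ (q : ℝ) ^ ε * nh q ε c.2.2.1) ∧
          (q : ℝ) * ‖u (q ^ (M + 1) * L) w‖ ≤
            max T (2 * NN) * ‖sm q (q ^ M * L) (V c.1 M) w‖) ∧
        (1 ≤ rl ((q : ℝ) ^ ε) (nh q ε c.2.2.1) c.2.2.2 →
          ((Bw k q (rl ((q : ℝ) ^ ε) (nh q ε c.2.2.1) c.2.2.2) (V c.1 M) w).card : ℝ) ≤
            ((q : ℝ) ^ ε) ^ 2) ∧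
        (1 ≤ rl ((q : ℝ) ^ ε) (nh q ε c.2.2.1) c.2.2.2 →
          rl ((q : ℝ) ^ ε) (nh q ε c.2.2.1) c.2.2.2 < k → ((q : ℝ) ^ ε) ^ 2 ≤
          ((Bw k q (rl ((q : ℝ) ^ ε) (nh q ε c.2.2.1) c.2.2.2 + 1) (V c.1 M) w).card : ℝ))}
  have hSm : ∀ c, MeasurableSet (S c) := by
    intro c
    have hVm := (hup c.1).meas M le_rfl
    refine MeasurableSet.inter ?_ (MeasurableSet.inter ?_ ?_)
    · refine MeasurableSet.inter ?_ (MeasurableSet.inter ?_ ?_)
      · exact (measurableSet_le measurable_const (nu_meas hEX _)).inter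
          (measurableSet_le (nu_meas hEX _) measurable_const)
      · exact (measurableSet_le measurable_const (card_meas q hVm)).inter
          (measurableSet_le (card_meas q hVm) measurable_const)
      · exact measurableSet_le ((nu_meas hEX _).const_mul _)
          ((sm_meas hEX q _ hVm).norm.const_mul _)
    · exact meas_imp _ (measurableSet_le (Bw_meas k q _ (by omega) hVm) measurable_const)
    · exact meas_imp _ (meas_imp _
        (measurableSet_le measurable_const (Bw_meas k q _ (by omega) hVm)))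
  have hup' : ∀ c, Up k q L (M + 1) (max T (2 * NN)) ((q : ℝ) ^ ε) a (a * (2 * q) ^ m)
        (fun l => if l = M + 1 then S c else V c.1 l)
        (fun l => if l = M + 1 then bh q ε a (a * (2 * q) ^ m) c.2.1 else B c.1 l)
        (fun l => if l = M then nh q ε c.2.2.1 else N c.1 l) := by
    intro c
    exact (hup c.1).extend (le_max_left _ _) (hSm c) (fun w hw => hw.1.1.1)
      (fun w hw => hw.1.1.2)
      (bh_lo hq hε ha _) (bh_hi (le_top hq ha) _) (nh_lo hq hε _) (nh_hi hq _)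
      (fun w hw => hw.1.2.1.1) (fun w hw => hw.1.2.1.2) (fun w hw => hw.1.2.2)
  have hlb' : ∀ c, Lb k q (M + 1) ((q : ℝ) ^ ε)
        (fun l => if l = M + 1 then S c else V c.1 l)
        (fun l => if l = M then nh q ε c.2.2.1 else N c.1 l)
        (fun l => if l = M then rl ((q : ℝ) ^ ε) (nh q ε c.2.2.1) c.2.2.2 else Q c.1 l) := by
    intro c
    refine (hlb c.1).extend ?_ ?_ ?_ ?_ ?_
    · unfold rl
      split_ifs
      · exact max_le hk (by have := c.2.2.2.isLt; omega)
      · exact Nat.zero_le _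
    · unfold rl
      split_ifs with h1
      · intro h2
        have := le_max_left 1 (c.2.2.2 : ℕ)
        omega
      · intro _
        exact (not_le.mp h1).le
    · unfold rl
      split_ifs with h1
      · exact fun _ => h1
      · intro h2
        omega
    · intro h1 z hz D hD hD'
      have h2 := hz.2.1 h1
      refine le_trans ?_ h2
      have h3 : D ⊆ Bw k q (rl ((q : ℝ) ^ ε) (nh q ε c.2.2.1) c.2.2.2) (V c.1 M) z := by
        intro b hb
        exact Finset.mem_filter.mpr ⟨hD hb, hD' b hb⟩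
      exact_mod_cast Finset.card_le_card h3
    · intro h1 h2 z hz
      exact ⟨Bw k q (rl ((q : ℝ) ^ ε) (nh q ε c.2.2.1) c.2.2.2 + 1) (V c.1 M) z,
        Finset.filter_subset _ _, fun b hb => (Finset.mem_filter.mp hb).2, hz.2.2 h1 h2⟩
  obtain ⟨V', B', N', Q', h1, h1', h2, h3⟩ := disjL (Fintype.equivFin _) _ _ _ _ hup' hlb'
  refine ⟨V', B', N', Q', h1, h1', h2, ?_⟩
  intro w hw hlow
  have hq0 : (0 : ℝ) < q := by
    have : (2 : ℝ) ≤ q := by exact_mod_cast hq
    linarith
  have hw0 : 0 < ‖u (q ^ (M + 1) * L) w‖ := lt_of_lt_of_le (by positivity) hw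
  -- the children are low
  have hchild : ∀ b < q, Low k q L M (a * (2 * q) ^ m) (phi q b w) := by
    intro b hb c hc hc'
    have h4 := hlow (b :: c) (by simpa using hc) (by
      intro x hx
      rcases List.mem_cons.mp hx with h5 | h5
      · rw [h5]; exact hb
      · exact hc' x h5)
    have h5 : M + 1 - (b :: c).length = M - c.length := by
      rw [List.length_cons]
      omega
    rw [h5] at h4
    exact h4
  -- splitting
  have hL' : 1 ≤ q ^ M * L := Nat.mul_pos (pow_pos (by omega) _) hL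
  have hsp := hPF.2 k q (q ^ M * L) (by omega) hL' w
  have hlen : q * (q ^ M * L) = q ^ (M + 1) * L := by ring
  rw [hlen] at hsp
  have hsum : ‖∑ b ∈ range q, e (P w b) * u (q ^ M * L) (phi q b w)‖ =
      q * ‖u (q ^ (M + 1) * L) w‖ := by
    rw [hsp, norm_mul, norm_div, norm_one, Complex.norm_natCast, ← mul_assoc,
      mul_one_div_cancel hq0.ne', one_mul]
  obtain ⟨c, hc⟩ := pigeon (q := q) (N := q ^ M * L) (fun c => V c M) hdis w
    (q * ‖u (q ^ (M + 1) * L) w‖) (a * 2 ^ M) (by positivity)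
    (fun b => by rw [norm_mul, hEX.1, one_mul]) hsum (by
      intro b hb hb'
      by_contra hcon
      obtain ⟨c, hc⟩ := hcov (phi q b w) (not_le.mp hcon).le (hchild b (Finset.mem_range.mp hb))
      exact hb' c hc) (by
      have h5 : (q : ℝ) * (a * 2 ^ (M + 1)) ≤ q * ‖u (q ^ (M + 1) * L) w‖ :=
        mul_le_mul_of_nonneg_left hw hq0.le
      rw [pow_succ] at h5
      linarith)
  have hcar : (q : ℝ) * ‖u (q ^ (M + 1) * L) w‖ ≤
      max T (2 * NN) * ‖sm q (q ^ M * L) (V c M) w‖ :=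
    hc.trans (mul_le_mul_of_nonneg_right (le_max_right _ _) (norm_nonneg _))
  -- the number of children
  have hne : (pos q (V c M) w).Nonempty := by
    by_contra hcon
    rw [Finset.not_nonempty_iff_eq_empty] at hcon
    have h5 : sm q (q ^ M * L) (V c M) w = 0 := by
      unfold sm
      rw [hcon, Finset.sum_empty]
    rw [h5, norm_zero, mul_zero] at hcar
    have : 0 < (q : ℝ) * ‖u (q ^ (M + 1) * L) w‖ := by positivity
    linarith
  have hc1 : (1 : ℝ) ≤ ((pos q (V c M) w).card : ℝ) := by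
    exact_mod_cast hne.card_pos
  have hc2 : ((pos q (V c M) w).card : ℝ) ≤ q := by
    have h5 : (pos q (V c M) w).card ≤ (range q).card := by
      unfold pos
      exact Finset.card_filter_le _ _
    rw [Finset.card_range] at h5
    exact_mod_cast h5
  obtain ⟨p, hp1, hp2⟩ := grid_n hq hε hc1 hc2
  have hnp : nh q ε p = ((q : ℝ) ^ ε) ^ (p : ℕ) := by
    unfold nh
    exact if_pos (hp1.trans hc2)
  -- the height
  have h4 : ‖u (q ^ (M + 1) * L) w‖ < a * (2 * q) ^ m := hlow [] (Nat.zero_le _) (by simp)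
  have hw' : a ≤ ‖u (q ^ (M + 1) * L) w‖ :=
    le_trans (le_mul_of_one_le_right ha.le (one_le_pow₀ (by norm_num))) hw
  obtain ⟨h, h5, h6⟩ := grid_h hq hε ha hw' h4
  have hbh : bh q ε a (a * (2 * q) ^ m) h = a * ((q : ℝ) ^ ε) ^ (h : ℕ) := by
    unfold bh
    exact if_pos (h5.trans h4.le)
  have hold : (bh q ε a (a * (2 * q) ^ m) h ≤ ‖u (q ^ (M + 1) * L) w‖ ∧
          ‖u (q ^ (M + 1) * L) w‖ ≤ (q : ℝ) ^ ε * bh q ε a (a * (2 * q) ^ m) h) ∧
          (nh q ε p ≤ ((pos q (V c M) w).card : ℝ) ∧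
          ((pos q (V c M) w).card : ℝ) ≤ (q : ℝ) ^ ε * nh q ε p) ∧
          (q : ℝ) * ‖u (q ^ (M + 1) * L) w‖ ≤
            max T (2 * NN) * ‖sm q (q ^ M * L) (V c M) w‖ := by
    rw [hbh, hnp]
    exact ⟨⟨h5, h6⟩, ⟨hp1, hp2⟩, hcar⟩
  -- the label
  by_cases hfew : nh q ε p ≤ (q : ℝ) ^ ε
  · have hρ0 : 0 < (q : ℝ) ^ ε := lt_trans one_pos (rho_gt hq hε)
    have hb1 : ((Bw k q 1 (V c M) w).card : ℝ) ≤ ((q : ℝ) ^ ε) ^ 2 := by
      rw [Bw_one]
      refine hold.2.1.2.trans ?_
      rw [sq]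
      exact mul_le_mul_of_nonneg_left hfew hρ0.le
    obtain ⟨r, hr1, hr2, hr3, hr4⟩ := exists_label
      (fun r => ((Bw k q r (V c M) w).card : ℝ) ≤ ((q : ℝ) ^ ε) ^ 2) k hk hb1
    have hrl : rl ((q : ℝ) ^ ε) (nh q ε p) r = r := by
      unfold rl
      rw [if_pos hfew, max_eq_right hr1]
    refine h3 w (c, h, p, ⟨r, by omega⟩) ?_
    change w ∈ (if M + 1 = M + 1 then S (c, h, p, ⟨r, by omega⟩) else V c (M + 1))
    rw [if_pos rfl]
    refine ⟨hold, ?_, ?_⟩
    · intro _
      change ((Bw k q (rl ((q : ℝ) ^ ε) (nh q ε p) r) (V c M) w).card : ℝ) ≤ ((q : ℝ) ^ ε) ^ 2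
      rw [hrl]
      exact hr3
    · intro _ hlt
      change rl ((q : ℝ) ^ ε) (nh q ε p) r < k at hlt
      change ((q : ℝ) ^ ε) ^ 2 ≤
        ((Bw k q (rl ((q : ℝ) ^ ε) (nh q ε p) r + 1) (V c M) w).card : ℝ)
      rw [hrl] at hlt ⊢
      exact (not_le.mp (hr4 hlt)).le
  · have hrl : rl ((q : ℝ) ^ ε) (nh q ε p) 0 = 0 := by
      unfold rl
      rw [if_neg hfew]
    refine h3 w (c, h, p, ⟨0, by omega⟩) ?_
    change w ∈ (if M + 1 = M + 1 then S (c, h, p, ⟨0, by omega⟩) else V c (M + 1))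
    rw [if_pos rfl]
    refine ⟨hold, ?_, ?_⟩
    · intro h7
      change 1 ≤ rl ((q : ℝ) ^ ε) (nh q ε p) 0 at h7
      rw [hrl] at h7
      omega
    · intro h7
      change 1 ≤ rl ((q : ℝ) ^ ε) (nh q ε p) 0 at h7
      rw [hrl] at h7
      omega

/-- TY -/
theorem pf_TY (hEX : T_EX) (hPF : T_PF) : TK_TY := by
  intro k m ε hk hε
  have hCl : ∀ M, ClL k m ε M := by
    intro M
    induction M with
    | zero => exact baseL hEX k m ε hε
    | succ M ih => exact stepL hEX hPF k m hk ε hε M ih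
  obtain ⟨NN, T, hT, h⟩ := hCl m
  refine ⟨NN, T, hT, fun q L t₀ hq hL ht => ?_⟩
  have hq0 : (0 : ℝ) < q := by
    have : (2 : ℝ) ≤ q := by exact_mod_cast hq
    linarith
  obtain ⟨V, B, N, Q, hup, hlb, -, hcov⟩ := h q L (t₀ / 2 ^ m) hq hL (by positivity)
  have htop : t₀ / 2 ^ m * (2 * (q : ℝ)) ^ m = t₀ * (q : ℝ) ^ m := by
    rw [mul_pow]
    field_simp
  rw [htop] at hcov
  simp only [htop] at hup
  refine ⟨fun c j => V c (m - j), fun c j => B c (m - j), fun c j => N c (m - (j + 1)),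
    fun c j => Q c (m - (j + 1)), ?_, ?_, ?_⟩
  · intro c
    have hs : ∀ j, j < m → m - j = (m - (j + 1)) + 1 := fun j hj => by omega
    refine ⟨?_, ?_, ?_, ?_, ?_, ?_, ?_, ?_, ?_, ?_⟩
    · intro j _
      exact (hup c).meas _ (Nat.sub_le _ _)
    · intro j _ w hw
      exact (hup c).lo _ (Nat.sub_le _ _) w hw
    · intro j _ w hw
      exact (hup c).hi _ (Nat.sub_le _ _) w hw
    · intro j _
      exact (hup c).B_lo _ (Nat.sub_le _ _)
    · intro j _
      exact (hup c).B_hi _ (Nat.sub_le _ _)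
    · intro j hj
      exact (hup c).one_le _ (by omega)
    · intro j hj
      exact (hup c).n_le _ (by omega)
    · intro j hj w hw
      refine (hup c).card_lo (m - (j + 1)) (by omega) w ?_
      rw [← hs j hj]
      exact hw
    · intro j hj w hw
      refine (hup c).card_hi (m - (j + 1)) (by omega) w ?_
      rw [← hs j hj]
      exact hw
    · intro j hj w hw
      have h1 := (hup c).carry (m - (j + 1)) (by omega) w (by rw [← hs j hj]; exact hw)
      rw [← hs j hj] at h1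
      exact h1
  · intro c
    have hs : ∀ j, j < m → (m - (j + 1)) + 1 = m - j := fun j hj => by omega
    refine ⟨?_, ?_, ?_, ?_, ?_⟩
    · intro j hj
      exact (hlb c).le _ (by omega)
    · intro j hj
      exact (hlb c).big _ (by omega)
    · intro j hj
      exact (hlb c).few _ (by omega)
    · intro j hj h1
      have h2 := (hlb c).pass (m - (j + 1)) (by omega) h1
      rw [hs j hj] at h2
      exact h2
    · intro j hj h1 h3
      have h2 := (hlb c).own (m - (j + 1)) (by omega) h1 h3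
      rw [hs j hj] at h2
      exact h2
  · intro w hw
    by_cases hE : w ∈ Etop k q m L (t₀ * (q : ℝ) ^ m)
    · exact Or.inr hE
    · left
      have h1 : t₀ / 2 ^ m * 2 ^ m ≤ ‖u (q ^ m * L) w‖ := by
        rw [div_mul_cancel₀ _ (by positivity)]
        exact hw
      obtain ⟨c, hc⟩ := hcov w h1 (by
        intro c hc hc'
        by_contra hcon
        exact hE ⟨c, hc, hc', not_lt.mp hcon⟩)
      exact Set.mem_iUnion.mpr ⟨c, hc⟩

end Pool.Agent.H81.CLK
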